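import Mathlib
import Pool.Agent.H7R2.LG.Dense

set_option autoImplicit false

namespace Pool.Agent.Results.MP_97687e_co.DenseGirth

/-- `γ(n, k)`: the largest number of edges of a graph on `n` vertices of girth greater than `k`. -/
noncomputable def gam (n k : ℕ) : ℕ :=
  sSup {m | ∃ G : SimpleGraph (Fin n), (k : ℕ∞) < G.egirth ∧ G.edgeSet.ncard = m}

theorem le_gam {n k : ℕ} (G : SimpleGraph (Fin n)) (h : (k : ℕ∞) < G.egirth) :
    G.edgeSet.ncard ≤ gam n k := by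
  apply le_csSup
  · refine ⟨Nat.card (Sym2 (Fin n)), ?_⟩
    rintro m ⟨G, -, rfl⟩
    rw [← Nat.card_coe_set_eq]
    exact Nat.card_le_card_of_injective (Subtype.val) Subtype.val_injective
  · exact ⟨G, h, rfl⟩

/-- `D(m) = 4m + 2 - 2⌊m/8⌋` for odd `m`, `D(m) = 4m + 4 - ⌊m/4⌋` for even `m`. -/
def D (m : ℕ) : ℕ := if Odd m then 4 * m + 2 - 2 * (m / 8) else 4 * m + 4 - m / 4

/-- For every `m ≥ 4` there is `c > 0` with `γ(n, 2m) ≥ c n ^ (1 + 3 / D(m))` for all sufficiently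
large `n`. -/
theorem result : ∀ m : ℕ, 4 ≤ m → ∃ c : ℝ, 0 < c ∧ ∀ᶠ n : ℕ in Filter.atTop,
    c * (n : ℝ) ^ (1 + 3 / (D m : ℝ)) ≤ (gam n (2 * m) : ℝ) := by
  intro m hm
  have key : ∃ c : ℝ, 0 < c ∧ ∀ᶠ n : ℕ in Filter.atTop,
      ∃ G : SimpleGraph (Fin n), ((2 * m : ℕ) : ℕ∞) < G.egirth ∧
        c * (n : ℝ) ^ (1 + 3 / (D m : ℝ)) ≤ (G.edgeSet.ncard : ℝ) := by
    by_cases ho : Odd m
    · have := Pool.Agent.H7R2.LG.dense_odd m ho
      rwa [D, if_pos ho]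
    · have := Pool.Agent.H7R2.LG.dense_four m hm
      rwa [D, if_neg ho]
  obtain ⟨c, hc, h⟩ := key
  refine ⟨c, hc, ?_⟩
  filter_upwards [h] with n hn
  obtain ⟨G, hG, hE⟩ := hn
  exact hE.trans (by exact_mod_cast le_gam G hG)

end Pool.Agent.Results.MP_97687e_co.DenseGirth
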