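import Pool.Agent.H268R2.LB.Final
import Pool.Agent.H268R2.LB.Example

/-! Dense graphs of large girth have no large free group of automorphisms satisfying a short
law. -/

set_option autoImplicit false

namespace Pool.Agent.Results.MP_97687e_co.GroupLaws

open Classical in
/-- First part: `G` is a graph on the vertex set `V` without cycles of length at most `2 k`; the
group `A` acts on `V` by automorphisms of `G` and only the identity fixes a vertex. `A` satisfies a
law of length `L` (a nontrivial word of length `L` in `r` letters with `K = 4 r - 2`; or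
commutativity, `L = 3`, `K = 4`; or `a ^ L = 1`, `K = 2`). `Nat.size R` is the number of binary
digits of `R`. Second part: sharpness for `k = 3` and commutative groups. -/
theorem result :
    (∀ (V : Type) [Fintype V] [Nonempty V] (G : SimpleGraph V) (A : Type) [Group A] [Fintype A]
      [MulAction A V] (k : ℕ), 1 ≤ k →
      (∀ (v : V) (w : G.Walk v v), w.IsCycle → 2 * k < w.length) →
      (∀ (a : A) (x y : V), G.Adj x y → G.Adj (a • x) (a • y)) →
      (∀ (a : A) (x : V), a • x = x → a = 1) →
      ∀ K L : ℕ,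
        ((∃ (r : ℕ) (u : FreeGroup (Fin r)), u ≠ 1 ∧
            (∀ g : Fin r → A, FreeGroup.lift g u = 1) ∧ L = u.norm ∧ K = 4 * r - 2) ∨
          ((∀ a b : A, a * b = b * a) ∧ L = 3 ∧ K = 4) ∨
          (1 ≤ L ∧ (∀ a : A, a ^ L = 1) ∧ K = 2)) →
        ∀ R : ℕ, L * R ≤ k →
          Fintype.card A * (G.edgeFinset.card / Fintype.card V) ^ R ≤
            K ^ Nat.size R * Fintype.card V ∧
          ∀ c : ℝ, 0 < c → c * (Fintype.card V : ℝ) ^ (1 + 1 / (k : ℝ)) ≤ G.edgeFinset.card →
            (Fintype.card A : ℝ) ≤ (K : ℝ) ^ Nat.size R * (2 / c) ^ R *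
              (Fintype.card V : ℝ) ^ (1 - (R : ℝ) / (k : ℝ))) ∧
    (∀ p : ℕ, p.Prime → ∃ (V : Type) (_ : Fintype V) (G : SimpleGraph V)
      (_ : DecidableRel G.Adj) (A : Type) (_ : CommGroup A) (_ : Fintype A) (_ : MulAction A V),
      Fintype.card V = 2 * p ^ 3 ∧ G.edgeFinset.card = p ^ 4 ∧ Fintype.card A = p ^ 2 ∧
      (∀ (v : V) (w : G.Walk v v), w.IsCycle → 2 * 3 < w.length) ∧
      (∀ (a : A) (x y : V), G.Adj x y → G.Adj (a • x) (a • y)) ∧
      (∀ (a : A) (x : V), a • x = x → a = 1)) := by
  refine ⟨?_, Pool.Agent.H268R2.LB.Ex.example_exists⟩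
  intro V _ _ G A _ _ _ k hk hg haut hfree K L hlaw R hR
  obtain ⟨N, hK, hN⟩ := Pool.Agent.H268R2.LB.altLaw_cases hlaw
  constructor
  · rw [hK]
    exact Pool.Agent.H268R2.LB.edges_bound hg haut hfree hN (by nlinarith)
  · intro c hc he
    have h := Pool.Agent.H268R2.LB.real_bound hg haut hfree hN hk hR hc he
    rw [hK]
    exact_mod_cast h

end Pool.Agent.Results.MP_97687e_co.GroupLaws
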