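import Mathlib
import Pool.Agent.H967G.Turan

set_option autoImplicit false

namespace Pool.Agent.Results.MP_97687e_co.PlaneTower

/-- For every `k ≥ 1` there is `c > 0` such that for all large `n` some graph on `n` vertices has girth
larger than `2k` and at least `c n ^ (1 + 1 / (3 i - ⌈i/3⌉))` edges, where `i = ⌈k/2⌉`. -/
theorem result : ∀ k : ℕ, 1 ≤ k →
    ∃ c : ℝ, 0 < c ∧ ∃ N : ℕ, ∀ n : ℕ, N ≤ n → ∃ G : SimpleGraph (Fin n),
      ((2 * k : ℕ) : ℕ∞) < G.egirth ∧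
      c * (n : ℝ) ^ ((1 : ℝ) + 1 / ((3 * ((k + 1) / 2) - ((k + 1) / 2 + 2) / 3 : ℕ) : ℝ)) ≤
        (G.edgeSet.ncard : ℝ) :=
  fun k hk => Girth967.dense_graphs k hk

end Pool.Agent.Results.MP_97687e_co.PlaneTower
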