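import Pool.Agent.H607R2.BW.CORE
import Pool.Agent.H607R2.BW.GRID
import Pool.Agent.H607R2.BW.KST
import Pool.Agent.H607R2.BW.GIR
import Pool.Agent.H607R2.BW.ASY2
import Pool.Agent.H607R2.BW.RGIR

/-!
# Graphs of large girth and extremal order need machines with polynomially many states
-/

namespace Pool.Agent.Results.MP_97687e_co.SmallWidth

open Pool.Agent.H607R2.BW

theorem result :
  (∀ (m w : ℕ) (G : SimpleGraph (Str m)), GraphWidth w G → 4 < G.egirth →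
    2 * Nat.card G.edgeSet ≤ 2 ^ m * (w * (1 + 2 * w * m))) ∧
  (∀ (k : ℕ) (c c' : ℝ), 2 ≤ k → 0 < c' → 0 ≤ c → c < 1 / (2 * k) →
    ∃ m₀ : ℕ, ∀ (m w : ℕ) (G : SimpleGraph (Str m)), m₀ ≤ m → GraphWidth w G →
      ((2 * k : ℕ) : ℕ∞) < G.egirth →
      c' * ((2 : ℝ) ^ m) ^ (1 + 1 / (k : ℝ)) ≤ Nat.card G.edgeSet →
      ((2 : ℝ) ^ m) ^ c < w) := by
  exact t_RGIR (t_KST (t_GRID t_CORE)) t_GIR t_ASY2

end Pool.Agent.Results.MP_97687e_co.SmallWidth
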